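import Pool.Agent.SplZ.Bridge
import Pool.Agent.SplD.Low
import Pool.Agent.BSpl.Main

/-!
# SplZ, module Final: the generic dimension from trivial truncated motions

`Sch r k T`: the number of Schumaker, with the number of edges at the interior vertices.
`GenSch r k T`: the generic dimension of the space of splines of smoothness `r` and degree `k` is `Sch r k T`: every
realisation has at least this dimension, and arbitrarily small perturbations of every realisation have this dimension.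
`gen_of_z`: from trivial truncated motions at one position over one field (see `z_bridge`).
The range `5 r ≤ 2 k + 1` is in the file Five.lean.
-/

set_option autoImplicit false

namespace Pool.Agent.SplZ

open Finset Pool.Agent.Spl1 Pool.Agent.Spl2

variable {V : Type} [Fintype V] [DecidableEq V]

/-- the number of Schumaker -/
def Sch (r k : ℕ) (T : Finset (Finset V)) : ℤ :=
  (k + 2).choose 2 + (k - r + 1).choose 2 * (intE T).card -
    ((k + 2).choose 2 - (r + 2).choose 2 : ℕ) * (intV T).card +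
    ∑ v ∈ intV T, ∑ j ∈ Icc 1 (k - r), ((r + j + 1 - j * (nb (edges T) v).card : ℕ) : ℤ)

/-- the generic dimension is the number of Schumaker -/
def GenSch (r k : ℕ) (T : Finset (Finset V)) : Prop :=
  ∃ d : ℕ, (d : ℤ) = Sch r k T ∧
    (∀ p : V × Fin 2 → ℝ, IsTriang p T → d ≤ Module.finrank ℝ (SplineFn r k p T)) ∧
    ∀ p : V × Fin 2 → ℝ, IsTriang p T → ∀ ε : ℝ, 0 < ε →
      ∃ p' : V × Fin 2 → ℝ, dist p' p < ε ∧ IsTriang p' T ∧
        Module.finrank ℝ (SplineFn r k p' T) = d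

theorem nb_eq {T : Finset (Finset V)} {v : V} (hv : v ∈ intV T) :
    nb (intE T) v = nb (edges T) v := by
  ext u
  rw [mem_nb, mem_nb]
  refine and_congr_right fun hu => ?_
  unfold intE
  rw [mem_filter]
  constructor
  · exact fun h => h.1
  · intro h
    unfold intV at hv
    rw [mem_filter] at hv
    exact ⟨h, hv.2 _ h (by simp)⟩

theorem nbrs_eq {T : Finset (Finset V)} (hu : ∀ v, ∃ t ∈ T, v ∈ t) (v : V) :
    BSpl.nbrs T v = nb (edges T) v := by
  ext u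
  unfold BSpl.nbrs
  rw [mem_filter, SplD.low_verts hu, mem_nb]
  constructor
  · rintro ⟨-, h⟩
    have hne : v ≠ u := h.1
    exact ⟨hne.symm, (SplD.low_edge hne).1 h⟩
  · rintro ⟨h1, h2⟩
    exact ⟨mem_univ _, (SplD.low_edge (Ne.symm h1)).2 h2⟩

/-- the lower bound of Schumaker -/
theorem sch_le {p : V × Fin 2 → ℝ} {T : Finset (Finset V)} (hp : IsTriang p T) (hT : Disc T)
    {r k : ℕ} (hk : r < k) : Sch r k T ≤ (Module.finrank ℝ (SplineFn r k p T) : ℤ) := by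
  obtain ⟨a, ha, h⟩ := BSpl.super_ge r k hk T
  refine le_trans ?_ (SplD.low_bound hp hT r k hk a ha)
  unfold BSpl.SupB at h
  rw [SplD.low_EI, SplD.low_VI hp.used] at h
  refine le_trans (le_of_eq ?_) h
  unfold Sch BSpl.gam BSpl.sig
  congr 1
  refine Finset.sum_congr rfl fun v _ => ?_
  rw [nbrs_eq hp.used]
  push_cast
  rfl

theorem genSch_of_upper {T : Finset (Finset V)} (hT : Disc T) {p₀ : V × Fin 2 → ℝ}
    (hp₀ : IsTriang p₀ T) {r k : ℕ} (hk : r < k)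
    (hup : ∀ p : V × Fin 2 → ℝ, IsTriang p T → ∀ ε : ℝ, 0 < ε →
      ∃ p' : V × Fin 2 → ℝ, dist p' p < ε ∧ IsTriang p' T ∧
        (Module.finrank ℝ (SplineFn r k p' T) : ℤ) ≤ Sch r k T) : GenSch r k T := by
  obtain ⟨p', -, h2, h3⟩ := hup p₀ hp₀ 1 one_pos
  have h5 : (Module.finrank ℝ (SplineFn r k p' T) : ℤ) = Sch r k T :=
    le_antisymm h3 (sch_le h2 hT hk)
  refine ⟨Module.finrank ℝ (SplineFn r k p' T), h5, fun p hp => ?_, fun p hp ε hε => ?_⟩
  · have h6 := sch_le hp hT hk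
    rw [← h5] at h6
    exact_mod_cast h6
  · obtain ⟨p'', h6, h7, h8⟩ := hup p hp ε hε
    refine ⟨p'', h6, h7, ?_⟩
    have h10 : (Module.finrank ℝ (SplineFn r k p'' T) : ℤ) = Sch r k T :=
      le_antisymm h8 (sch_le h7 hT hk)
    rw [← h5] at h10
    exact_mod_cast h10

/-- **the generic dimension from trivial truncated motions** -/
theorem gen_of_z {K : Type*} [Field K] {T : Finset (Finset V)} (hT : Disc T)
    {p₀ : V × Fin 2 → ℝ} (hp₀ : IsTriang p₀ T) (k₀ δ : ℕ) (τ : V → ℕ) (q₀ : V × Fin 2 → K)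
    (hδ : 1 ≤ δ) (hτk : ∀ v ∈ intV T, τ v ≤ k₀)
    (hτ : ∀ u ∈ intV T, ∀ v ∈ intV T, u ≠ v → ({u, v} : Finset V) ∈ intE T → δ ≤ τ u + τ v)
    (hZ : ∀ μ ∈ Sol k₀ δ τ q₀ (intE T) (intV T), ∀ v ∈ intV T, dl q₀ v ^ τ v ∣ μ v)
    (r k : ℕ) (hrk : r + δ ≤ k) (hr : r + δ ≤ k₀) : GenSch r k T := by
  obtain ⟨Q, hQ, hQ'⟩ := z_bridge T k₀ δ τ q₀ hδ hτk hτ hZ
  have hk : r < k := by omega
  refine genSch_of_upper hT hp₀ hk fun p hp ε hε => ?_
  obtain ⟨p', hp', hp'Q⟩ := exists_eval_ne_of_open hQ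
    ((isOpen_isTriang T).inter Metric.isOpen_ball) ⟨p, hp, Metric.mem_ball_self hε⟩
  refine ⟨p', hp'.2, hp'.1, ?_⟩
  obtain ⟨d, rfl⟩ : ∃ d, k = r + 1 + d := ⟨k - r - 1, by omega⟩
  have h1 := hQ' p' hp'Q r d (by omega) hr
  rw [finrank_splineFn hp'.1 hT, finrank_splineAlg hp'.1 hT r d]
  unfold Sch
  have e1 : r + 1 + d - r = d + 1 := by omega
  have e2 : r + 1 + d + 2 = r + d + 3 := by ring
  rw [e1, e2]
  have h2 : ∑ v ∈ intV T, ∑ j ∈ Icc 1 (d + 1), (r + j + 1 - j * (nb (intE T) v).card) =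
      ∑ v ∈ intV T, ∑ j ∈ Icc 1 (d + 1), (r + j + 1 - j * (nb (edges T) v).card) := by
    refine Finset.sum_congr rfl fun v hv => ?_
    rw [nb_eq hv]
  rw [h2] at h1
  have h3 : (((Module.finrank ℝ (CofSys r d p' T) +
      (intV T).card * ((r + d + 3).choose 2 - (r + 2).choose 2)) : ℕ) : ℤ) ≤
      ((((d + 2).choose 2 * (intE T).card +
        ∑ v ∈ intV T, ∑ j ∈ Icc 1 (d + 1), (r + j + 1 - j * (nb (edges T) v).card)) : ℕ) : ℤ) := by
    exact_mod_cast h1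
  push_cast at h3 ⊢
  linarith

/-- the version with a generic real statement -/
theorem gen_of_z_real {T : Finset (Finset V)} (hT : Disc T)
    {p₀ : V × Fin 2 → ℝ} (hp₀ : IsTriang p₀ T) (k₀ δ : ℕ) (τ : V → ℕ)
    (hδ : 1 ≤ δ) (hτk : ∀ v ∈ intV T, τ v ≤ k₀)
    (hτ : ∀ u ∈ intV T, ∀ v ∈ intV T, u ≠ v → ({u, v} : Finset V) ∈ intE T → δ ≤ τ u + τ v)
    (hZ : ∃ Q : MvPolynomial (V × Fin 2) ℝ, Q ≠ 0 ∧ ∀ p : V × Fin 2 → ℝ,
      MvPolynomial.eval p Q ≠ 0 →
        ∀ μ ∈ Sol k₀ δ τ p (intE T) (intV T), ∀ v ∈ intV T, dl p v ^ τ v ∣ μ v)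
    (r k : ℕ) (hrk : r + δ ≤ k) (hr : r + δ ≤ k₀) : GenSch r k T := by
  obtain ⟨Q, hQ, hQ'⟩ := hZ
  obtain ⟨p, hp⟩ : ∃ p : V × Fin 2 → ℝ, MvPolynomial.eval p Q ≠ 0 := by
    by_contra hcon
    push Not at hcon
    exact hQ (MvPolynomial.funext fun x => by rw [hcon x, map_zero])
  exact gen_of_z hT hp₀ k₀ δ τ p hδ hτk hτ (hQ' p hp) r k hrk hr

end Pool.Agent.SplZ
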