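import Pool.Agent.SplZ.Final
import Pool.Agent.SplD.R2

/-!
# SplZ, module Five: the range `5 r ≤ 2 k + 1` in the same form
-/

set_option autoImplicit false

namespace Pool.Agent.SplZ

open Finset Pool.Agent.Spl1

variable {V : Type} [Fintype V] [DecidableEq V]

theorem gen_of_5r {T : Finset (Finset V)} (hT : Disc T) {p₀ : V × Fin 2 → ℝ}
    (hp₀ : IsTriang p₀ T) {r k : ℕ} (hr : 1 ≤ r) (hk : 5 * r ≤ 2 * k + 1) : GenSch r k T := by
  have hrk : r < k := by omega
  have hD := SplD.low_disc hp₀ hT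
  refine genSch_of_upper hT hp₀ hrk fun p hp ε hε => ?_
  obtain ⟨p', h1, h2, h3⟩ := BSpl.generic_dim r k hr hk T hD (pt p) (SplD.tri_of_triang hp) ε hε
  have h4 := SplD.triang_of_tri hp.card3 hp.used h2
  refine ⟨fun x => p' x.1 x.2, ?_, h4, ?_⟩
  · rw [dist_pi_lt_iff hε]
    rintro ⟨v, i⟩
    have h5 := h1 v (by
      rw [SplD.low_verts hp.used]
      exact Finset.mem_univ v)
    rw [Real.dist_eq]
    refine lt_of_le_of_lt ?_ h5
    have h6 := norm_le_pi_norm (p' v - pt p v) i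
    rw [Real.norm_eq_abs] at h6
    exact h6
  · have h5 : Module.finrank ℝ (SplineFn r k (fun x => p' x.1 x.2) T) =
        Module.finrank ℝ (BSpl.Spl r k T p') := by
      rw [finrank_splineFn h4 hT, ← SplD.low_alg, BSpl.finrank_Spl r k T hD.surf p' h2]
      rfl
    rw [h5]
    unfold BSpl.Form at h3
    rw [SplD.low_EI, SplD.low_VI hp₀.used] at h3
    have h7 : ((Module.finrank ℝ (BSpl.Spl r k T p') + BSpl.gam r k * (intV T).card : ℕ) : ℤ) =
        (((k + 2).choose 2 + (k - r + 1).choose 2 * (intE T).card +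
          ∑ v ∈ intV T, BSpl.sig r k (BSpl.nbrs T v).card : ℕ) : ℤ) := by
      rw [h3]
    have h8 : ∑ v ∈ intV T, BSpl.sig r k (BSpl.nbrs T v).card =
        ∑ v ∈ intV T, ∑ j ∈ Icc 1 (k - r), (r + j + 1 - j * (nb (edges T) v).card) := by
      refine Finset.sum_congr rfl fun v _ => ?_
      rw [nbrs_eq hp₀.used]
      rfl
    rw [h8] at h7
    unfold Sch
    unfold BSpl.gam at h7
    push_cast at h7 ⊢
    linarith

end Pool.Agent.SplZ
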