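import Pool.Agent.Spl2.BrTriv
import Pool.Agent.Spl2.BrC2

/-!
# SplZ, module Jet: vanishing of order `δ` at a node

`Jd δ F`: all the coefficients of `F` at monomials `m` with `m 0 + m 1 < δ` vanish, i.e. `F ∈ (X 0, X 1) ^ δ`.
`Dec p k δ E I` (decoupling): for every full motion `μ ∈ Sol k δ (fun _ => δ) p E I` and every edge `u v` in `E`
`adp p u v (μ v) ∈ (X 0, X 1) ^ δ`.

Results: `dec_of_z` (decoupling from truncated motions), `dec_pred` (degree `k + 1 → k`, multiplication by `X 0`),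
`dec_succ` (`(k, δ) → (k + 1, δ + 1)`, characteristic `0`, derivatives), `dec_all`.
-/

set_option autoImplicit false

namespace Pool.Agent.SplZ

open Pool.Agent.Spl2 MvPolynomial

variable {K : Type*} [Field K]

/-- `F ∈ (X 0, X 1) ^ δ` -/
def Jd (δ : ℕ) (F : MvPolynomial (Fin 3) K) : Prop :=
  ∀ m : Fin 3 →₀ ℕ, m 0 + m 1 < δ → coeff m F = 0

theorem Jd.add {δ : ℕ} {F G : MvPolynomial (Fin 3) K} (hF : Jd δ F) (hG : Jd δ G) :
    Jd δ (F + G) := by
  intro m hm
  rw [coeff_add, hF m hm, hG m hm, add_zero]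

theorem Jd.sub {δ : ℕ} {F G : MvPolynomial (Fin 3) K} (hF : Jd δ F) (hG : Jd δ G) :
    Jd δ (F - G) := by
  intro m hm
  rw [coeff_sub, hF m hm, hG m hm, sub_zero]

theorem Jd.C_mul {δ : ℕ} {F : MvPolynomial (Fin 3) K} (hF : Jd δ F) (a : K) :
    Jd δ (C a * F) := by
  intro m hm
  rw [coeff_C_mul, hF m hm, mul_zero]

theorem jd_zero (δ : ℕ) : Jd δ (0 : MvPolynomial (Fin 3) K) := fun m _ => coeff_zero m

theorem Jd.of_C_mul {δ : ℕ} {F : MvPolynomial (Fin 3) K} {a : K} (ha : a ≠ 0)
    (hF : Jd δ (C a * F)) : Jd δ F := by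
  intro m hm
  have := hF m hm
  rw [coeff_C_mul] at this
  exact (mul_eq_zero.1 this).resolve_left ha

theorem Jd.of_X2_mul {δ : ℕ} {F : MvPolynomial (Fin 3) K} (hF : Jd δ (X 2 * F)) : Jd δ F := by
  intro m hm
  have h := hF (m + Finsupp.single 2 1) (by simpa using hm)
  have e : m + Finsupp.single 2 1 = Finsupp.single 2 1 + m := add_comm _ _
  rw [e, coeff_X_mul] at h
  exact h

theorem mem_ext3 {k : ℕ} {F : MvPolynomial (Fin 3) K} (hF : F.IsHomogeneous k) {m : Fin 3 →₀ ℕ}
    (h : coeff m F ≠ 0) : m 0 + m 1 + m 2 = k := by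
  have := hF h
  rw [Finsupp.weight_apply, Finsupp.sum_fintype _ _ (by simp), Fin.sum_univ_three] at this
  simpa using this

theorem eq_ex3 {m : Fin 3 →₀ ℕ} {k : ℕ} (h : m 0 + m 1 + m 2 = k) :
    m = ex3 (m 0) (m 1) (k - m 0 - m 1) := by
  ext s
  fin_cases s
  · simp [ex3]
  · simp [ex3]
  · simp [ex3]; omega

theorem jd_iff {k δ : ℕ} {F : MvPolynomial (Fin 3) K} (hF : F.IsHomogeneous k) :
    Jd δ F ↔ ∀ i j, i + j < δ → coeff (ex3 i j (k - i - j)) F = 0 := by
  constructor
  · intro h i j hij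
    exact h _ (by simpa [ex3] using hij)
  · intro h m hm
    by_contra hne
    have h1 := mem_ext3 hF hne
    apply hne
    rw [eq_ex3 h1]
    exact h _ _ hm

variable {V : Type*} [Fintype V] [DecidableEq V]

omit [Fintype V] in
/-- full motions in terms of `Jd` -/
theorem mem_sol_full {p : V × Fin 2 → K} {E : Finset (Finset V)} {I : Finset V} {k δ : ℕ}
    {μ : V → MvPolynomial (Fin 3) K} :
    μ ∈ Sol k δ (fun _ => δ) p E I ↔ (∀ v, (μ v).IsHomogeneous k) ∧ (∀ v, v ∉ I → μ v = 0) ∧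
      ∀ u v, u ≠ v → ({u, v} : Finset V) ∈ E → Jd δ (adp p u v (μ u - μ v)) := by
  constructor
  · rintro ⟨h1, h2, h3⟩
    refine ⟨h1, h2, fun u v huv he => ?_⟩
    rw [jd_iff (adp_homog p u v k _ ((h1 u).sub (h1 v)))]
    intro i j hij
    exact h3 u v huv he i j hij (show i < δ by omega) (show j < δ by omega)
  · rintro ⟨h1, h2, h3⟩
    refine ⟨h1, h2, fun u v huv he i j hij _ _ => ?_⟩
    exact (jd_iff (adp_homog p u v k _ ((h1 u).sub (h1 v)))).1 (h3 u v huv he) i j hij

/-- decoupling -/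
def Dec (p : V × Fin 2 → K) (k δ : ℕ) (E : Finset (Finset V)) (I : Finset V) : Prop :=
  ∀ μ ∈ Sol k δ (fun _ => δ) p E I, ∀ u v, u ≠ v → ({u, v} : Finset V) ∈ E →
    Jd δ (adp p u v (μ v))

/-- decoupling from the truncated motions -/
theorem dec_of_z {p : V × Fin 2 → K} {k δ : ℕ} {τ : V → ℕ} {E : Finset (Finset V)}
    {I : Finset V}
    (hτ : ∀ u ∈ I, ∀ v ∈ I, u ≠ v → ({u, v} : Finset V) ∈ E → δ ≤ τ u + τ v)
    (hZ : ∀ μ ∈ Sol k δ τ p E I, ∀ v ∈ I, dl p v ^ τ v ∣ μ v) : Dec p k δ E I := by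
  intro μ hμ u v huv he
  have hμ' := mem_sol_full.1 hμ
  obtain ⟨h1, h2, h3⟩ := hμ'
  have hZ1 := hZ μ ⟨h1, h2, fun u v huv he i j hij _ _ =>
    hμ.2.2 u v huv he i j hij (show i < δ by omega) (show j < δ by omega)⟩
  have h4 := h3 u v huv he
  rw [map_sub] at h4
  by_cases hv : v ∈ I
  · by_cases hu : u ∈ I
    · obtain ⟨a, ha⟩ := hZ1 u hu
      obtain ⟨b, hb⟩ := hZ1 v hv
      have hτ1 := hτ u hu v hv huv he
      intro m hm
      by_cases h5 : m 0 < τ u
      · have h6 : coeff m (adp p u v (μ u)) = 0 := by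
          rw [ha, map_mul, map_pow, adp_dl_left]
          exact brt_coeff 0 _ _ _ _ h5
        have h7 := h4 m hm
        rw [coeff_sub, h6, zero_sub, neg_eq_zero] at h7
        exact h7
      · rw [hb, map_mul, map_pow, adp_dl_right]
        exact brt_coeff 1 _ _ _ _ (by omega)
    · rw [h2 u hu, map_zero, zero_sub] at h4
      intro m hm
      have := h4 m hm
      rwa [coeff_neg, neg_eq_zero] at this
  · rw [h2 v hv, map_zero]
    exact jd_zero δ

omit [Fintype V] in
/-- lower degree -/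
theorem dec_pred {p : V × Fin 2 → K} {k δ : ℕ} {E : Finset (Finset V)} {I : Finset V}
    (hp : ∀ u v, u ≠ v → ({u, v} : Finset V) ∈ E → p (u, 1) ≠ p (v, 1))
    (h : Dec p (k + 1) δ E I) : Dec p k δ E I := by
  intro μ hμ u v huv he
  obtain ⟨h1, h2, h3⟩ := mem_sol_full.1 hμ
  have hadp : ∀ (u v : V) (f : MvPolynomial (Fin 3) K),
      adp p u v (X 0 * f) = C (p (u, 1) - p (v, 1)) * (X 2 * adp p u v f) := by
    intro u v f
    rw [map_mul]
    have : adp p u v (X 0) = C (p (u, 1) - p (v, 1)) * X 2 := by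
      unfold adp
      simp
    rw [this]
    ring
  have h4 : (fun v => X 0 * μ v) ∈ Sol (k + 1) δ (fun _ => δ) p E I := by
    rw [mem_sol_full]
    refine ⟨fun v => ?_, fun v hv => ?_, fun u v huv he => ?_⟩
    · have := (isHomogeneous_X K (0 : Fin 3)).mul (h1 v)
      rwa [add_comm] at this
    · rw [h2 v hv, mul_zero]
    · have e : X 0 * μ u - X 0 * μ v = X 0 * (μ u - μ v) := by ring
      rw [e, hadp]
      apply Jd.C_mul
      intro m hm
      by_cases hm2 : m 2 = 0
      · rw [coeff_X_mul', if_neg]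
        simpa using hm2
      · rw [coeff_X_mul', if_pos (by simpa using hm2)]
        exact h3 u v huv he _ (by simpa using hm)
  have h5 := h _ h4 u v huv he
  rw [hadp] at h5
  exact (h5.of_C_mul (sub_ne_zero.2 (hp u v huv he))).of_X2_mul

omit [Fintype V] [DecidableEq V] in
/-- the derivatives of `adp p u v f` -/
theorem pderiv_adp (p : V × Fin 2 → K) (u v : V) (f : MvPolynomial (Fin 3) K) (i : Fin 3) :
    pderiv i (adp p u v f) = ∑ j : Fin 3, pderiv i (adp p u v (X j)) * adp p u v (pderiv j f) := by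
  induction f using MvPolynomial.induction_on with
  | C a =>
    have h1 : adp p u v (C a) = C a := by
      rw [← algebraMap_eq, AlgHom.commutes]
    rw [h1]
    simp
  | add f g hf hg =>
    simp only [map_add, hf, hg, mul_add, Finset.sum_add_distrib]
  | mul_X f j hf =>
    have e : ∀ l : Fin 3, pderiv l (f * X j) = pderiv l f * X j + (if l = j then f else 0) := by
      intro l
      rw [pderiv_mul, pderiv_X]
      by_cases h : j = l
      · subst h
        simp
      · simp [h, Ne.symm h]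
    simp only [e, map_mul, map_add, pderiv_mul, hf]
    rw [Finset.sum_mul]
    have e2 : ∑ x : Fin 3, pderiv i (adp p u v (X x)) *
        (adp p u v (pderiv x f) * adp p u v (X j) + adp p u v (if x = j then f else 0)) =
        ∑ x : Fin 3, pderiv i (adp p u v (X x)) * adp p u v (pderiv x f) * adp p u v (X j) +
        pderiv i (adp p u v (X j)) * adp p u v f := by
      simp only [mul_add, Finset.sum_add_distrib]
      refine congrArg₂ (· + ·) ?_ ?_
      · exact Finset.sum_congr rfl fun x _ => by ring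
      · rw [Finset.sum_eq_single j]
        · simp
        · intro b _ hb
          simp [hb]
        · intro h
          exact absurd (Finset.mem_univ _) h
    rw [e2]
    ring

theorem Jd.pderiv {δ : ℕ} {F : MvPolynomial (Fin 3) K} (h : Jd (δ + 1) F) (i : Fin 3) :
    Jd δ (pderiv i F) := by
  intro m hm
  rw [coeff_pderiv, h, zero_mul]
  have h1 : (m + Finsupp.single i 1 : Fin 3 →₀ ℕ) 0 + (m + Finsupp.single i 1 : Fin 3 →₀ ℕ) 1 ≤
      m 0 + m 1 + 1 := by
    fin_cases i <;> simp <;> omega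
  omega

theorem jd_succ [CharZero K] {k δ : ℕ} (hδ : 1 ≤ δ) {F : MvPolynomial (Fin 3) K}
    (hF : F.IsHomogeneous (k + 1)) (h : ∀ i, Jd δ (MvPolynomial.pderiv i F)) : Jd (δ + 1) F := by
  have key : ∀ (i : Fin 3) (m : Fin 3 →₀ ℕ), 0 < m i →
      (m - Finsupp.single i 1 : Fin 3 →₀ ℕ) 0 + (m - Finsupp.single i 1 : Fin 3 →₀ ℕ) 1 < δ →
        coeff m F = 0 := by
    intro i m hm h1
    have h2 := h i _ h1
    rw [coeff_pderiv] at h2
    have h3 : m - Finsupp.single i 1 + Finsupp.single i 1 = m := by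
      ext j
      by_cases hj : i = j
      · subst hj
        simp
        omega
      · simp [hj]
    rw [h3] at h2
    have h4 : (((m - Finsupp.single i 1 : Fin 3 →₀ ℕ) i : ℕ) : K) + 1 ≠ 0 := Nat.cast_add_one_ne_zero _
    exact (mul_eq_zero.1 h2).resolve_right h4
  intro m hm
  by_cases h0 : 0 < m 0
  · refine key 0 m h0 ?_
    simp
    omega
  · by_cases h1 : 0 < m 1
    · refine key 1 m h1 ?_
      simp
      omega
    · by_cases h2 : 0 < m 2
      · refine key 2 m h2 ?_
        simp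
        omega
      · by_contra hne
        have := mem_ext3 hF hne
        omega

omit [Fintype V] [DecidableEq V] in
theorem pderiv_adp' (p : V × Fin 2 → K) (u v : V) (f : MvPolynomial (Fin 3) K) :
    pderiv 0 (adp p u v f) = adp p u v (pderiv 1 f) - C (p (v, 1)) * adp p u v (pderiv 2 f) ∧
    pderiv 1 (adp p u v f) = -adp p u v (pderiv 1 f) + C (p (u, 1)) * adp p u v (pderiv 2 f) ∧
    pderiv 2 (adp p u v f) = C (p (u, 1) - p (v, 1)) * adp p u v (pderiv 0 f) -
      C (p (u, 0) - p (v, 0)) * adp p u v (pderiv 1 f) +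
      C (p (u, 0) * p (v, 1) - p (v, 0) * p (u, 1)) * adp p u v (pderiv 2 f) := by
  have a0 : adp p u v (X 0) = C (p (u, 1) - p (v, 1)) * X 2 := by
    unfold adp
    simp
  have a1 : adp p u v (X 1) = X 0 - X 1 - C (p (u, 0) - p (v, 0)) * X 2 := by
    unfold adp
    simp
  have a2 : adp p u v (X 2) = -C (p (v, 1)) * X 0 + C (p (u, 1)) * X 1 +
      C (p (u, 0) * p (v, 1) - p (v, 0) * p (u, 1)) * X 2 := by
    unfold adp
    simp
  have x : ∀ i j : Fin 3, pderiv i (X j : MvPolynomial (Fin 3) K) = if i = j then 1 else 0 := by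
    intro i j
    rw [pderiv_X]
    by_cases h : i = j
    · subst h; simp
    · simp [h]
  refine ⟨?_, ?_, ?_⟩
  · rw [pderiv_adp, Fin.sum_univ_three, a0, a1, a2]
    simp only [map_add, map_sub, map_neg, pderiv_C_mul, x, neg_mul]
    simp
    ring
  · rw [pderiv_adp, Fin.sum_univ_three, a0, a1, a2]
    simp only [map_add, map_sub, map_neg, pderiv_C_mul, x, neg_mul]
    simp
  · rw [pderiv_adp, Fin.sum_univ_three, a0, a1, a2]
    simp only [map_add, map_sub, map_neg, pderiv_C_mul, x, neg_mul]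
    simp
    ring

omit [Fintype V] in
/-- the next jet -/
theorem dec_succ [CharZero K] {p : V × Fin 2 → K} {k δ : ℕ} {E : Finset (Finset V)}
    {I : Finset V} (hδ : 1 ≤ δ)
    (hp : ∀ u v, u ≠ v → ({u, v} : Finset V) ∈ E → p (u, 1) ≠ p (v, 1))
    (h : Dec p k δ E I) : Dec p (k + 1) (δ + 1) E I := by
  intro μ hμ u v huv he
  obtain ⟨h1, h2, h3⟩ := mem_sol_full.1 hμ
  -- the derivatives of the motion
  have h4 : ∀ j : Fin 3, (fun v => pderiv j (μ v)) ∈ Sol k δ (fun _ => δ) p E I := by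
    intro j
    rw [mem_sol_full]
    refine ⟨fun v => ?_, fun v hv => ?_, fun u v huv he => ?_⟩
    · exact (h1 v).pderiv
    · rw [h2 v hv, map_zero]
    · have hd := sub_ne_zero.2 (hp u v huv he)
      rw [← map_sub]
      obtain ⟨e0, e1, e2⟩ := pderiv_adp' p u v (μ u - μ v)
      have D := fun i => (h3 u v huv he).pderiv i
      have f2 : Jd δ (adp p u v (pderiv 2 (μ u - μ v))) := by
        refine Jd.of_C_mul hd ?_
        have : C (p (u, 1) - p (v, 1)) * adp p u v (pderiv 2 (μ u - μ v)) =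
            pderiv 0 (adp p u v (μ u - μ v)) + pderiv 1 (adp p u v (μ u - μ v)) := by
          rw [e0, e1, C_sub]
          ring
        rw [this]
        exact (D 0).add (D 1)
      have f1 : Jd δ (adp p u v (pderiv 1 (μ u - μ v))) := by
        have : adp p u v (pderiv 1 (μ u - μ v)) = pderiv 0 (adp p u v (μ u - μ v)) +
            C (p (v, 1)) * adp p u v (pderiv 2 (μ u - μ v)) := by
          rw [e0]
          ring
        rw [this]
        exact (D 0).add (f2.C_mul _)
      have f0 : Jd δ (adp p u v (pderiv 0 (μ u - μ v))) := by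
        refine Jd.of_C_mul hd ?_
        have : C (p (u, 1) - p (v, 1)) * adp p u v (pderiv 0 (μ u - μ v)) =
            pderiv 2 (adp p u v (μ u - μ v)) +
            C (p (u, 0) - p (v, 0)) * adp p u v (pderiv 1 (μ u - μ v)) -
            C (p (u, 0) * p (v, 1) - p (v, 0) * p (u, 1)) *
              adp p u v (pderiv 2 (μ u - μ v)) := by
          rw [e2]
          ring
        rw [this]
        exact ((D 2).add (f1.C_mul _)).sub (f2.C_mul _)
      fin_cases j
      · exact f0
      · exact f1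
      · exact f2
  have h5 : ∀ j : Fin 3, Jd δ (adp p u v (pderiv j (μ v))) := fun j => h _ (h4 j) u v huv he
  refine jd_succ hδ (adp_homog p u v _ _ (h1 v)) fun i => ?_
  obtain ⟨e0, e1, e2⟩ := pderiv_adp' p u v (μ v)
  fin_cases i
  · show Jd δ (pderiv 0 (adp p u v (μ v)))
    rw [e0]
    exact (h5 1).sub ((h5 2).C_mul _)
  · show Jd δ (pderiv 1 (adp p u v (μ v)))
    rw [e1]
    have : -adp p u v (pderiv 1 (μ v)) + C (p (u, 1)) * adp p u v (pderiv 2 (μ v)) =
        C (p (u, 1)) * adp p u v (pderiv 2 (μ v)) - adp p u v (pderiv 1 (μ v)) := by ring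
    rw [this]
    exact ((h5 2).C_mul _).sub (h5 1)
  · show Jd δ (pderiv 2 (adp p u v (μ v)))
    rw [e2]
    exact (((h5 0).C_mul _).sub ((h5 1).C_mul _)).add ((h5 2).C_mul _)

omit [Fintype V] in
/-- all degrees which can be reached -/
theorem dec_all [CharZero K] {p : V × Fin 2 → K} {k δ : ℕ} {E : Finset (Finset V)}
    {I : Finset V} (hδ : 1 ≤ δ)
    (hp : ∀ u v, u ≠ v → ({u, v} : Finset V) ∈ E → p (u, 1) ≠ p (v, 1))
    (h : Dec p k δ E I) (k' δ' : ℕ) (h1 : δ ≤ δ') (h2 : k' + δ ≤ k + δ') : Dec p k' δ' E I := by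
  obtain ⟨n, rfl⟩ := Nat.exists_eq_add_of_le h1
  have h3 : Dec p (k + n) (δ + n) E I := by
    clear h1 h2
    induction n with
    | zero => exact h
    | succ n ih => exact dec_succ (show 1 ≤ δ + n by omega) hp ih
  obtain ⟨m, hm⟩ := Nat.exists_eq_add_of_le (show k' ≤ k + n by omega)
  rw [hm] at h3
  clear hm h2
  induction m with
  | zero => exact h3
  | succ m ih => exact ih (dec_pred hp h3)

end Pool.Agent.SplZ
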