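import Pool.Agent.SplZ.Loc
import Pool.Agent.Spl2.BrDual
import Pool.Agent.Spl2.BrSemi

/-!
# SplZ, module Bridge: from truncated motions over any field to the real smoothing cofactors

`z_bridge`: suppose that at ONE position `p₀` over ONE field `K` all motions `μ ∈ Sol k δ τ p₀ E I` (`E` the interior edges, `I` the
interior vertices of `T`) are trivial, `dl p₀ v ^ τ v ∣ μ v`, where `τ u + τ v ≥ δ` on the edges between interior vertices.  Then for
generic real positions `p` and all `r`, `d` with `d + 1 ≥ δ`, `r + δ ≤ k`, the dimension of the space `CofSys r d p T` of smoothing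
cofactors (splines of smoothness `r` and degree `r + 1 + d`) is at most
`binom (d + 2) 2 |E| - (binom (r + d + 3) 2 - binom (r + 2) 2) |I| + ∑ v, ∑_{j = 1}^{d + 1} (r + j + 1 - j n_v)_+`.
-/

set_option autoImplicit false

namespace Pool.Agent.SplZ

open Pool.Agent.Spl2 MvPolynomial

variable {V : Type*} [Fintype V] [DecidableEq V]

theorem finrank_sol_dec_le {K : Type*} [Field K] (p : V × Fin 2 → K) (k δ : ℕ)
    (E : Finset (Finset V)) (I : Finset V) (hD : Dec p k δ E I)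
    (h1 : ∀ u v, u ≠ v → p (u, 1) ≠ p (v, 1))
    (h2 : ∀ v u w, u ≠ v → w ≠ v → u ≠ w → par p v u ≠ par p v w) :
    Module.finrank K (Sol k δ (fun _ => δ) p E I) ≤
      ∑ v ∈ I, ∑ s ∈ Finset.range (k + 1), (k + 1 - s - (Spl1.nb E v).card * (δ - s)) := by
  have hloc : ∀ v, Module.Finite K (Loc p k δ (Spl1.nb E v) v) ∧
      Module.finrank K (Loc p k δ (Spl1.nb E v) v) ≤
        ∑ s ∈ Finset.range (k + 1), (k + 1 - s - (Spl1.nb E v).card * (δ - s)) := by
    intro v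
    refine finrank_loc_le p k δ (Spl1.nb E v) v (fun u hu => ?_) (fun u hu w hw huw => ?_)
    · rw [Spl1.mem_nb] at hu
      exact h1 u v hu.1
    · rw [Spl1.mem_nb] at hu hw
      exact h2 v u w hu.1 hw.1 huw
  have hfin : ∀ v : I, Module.Finite K (Loc p k δ (Spl1.nb E v) v) := fun v => (hloc v).1
  have hmem : ∀ (v : I) (μ : Sol k δ (fun _ => δ) p E I), μ.1 v ∈ Loc p k δ (Spl1.nb E v) v := by
    rintro v ⟨μ, hμ⟩
    refine ⟨hμ.1 v, fun u hu => ?_⟩
    rw [Spl1.mem_nb] at hu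
    exact hD μ hμ u v hu.1 (by rw [Finset.pair_comm]; exact hu.2)
  let Φ : Sol k δ (fun _ => δ) p E I →ₗ[K] ((v : I) → Loc p k δ (Spl1.nb E v) v) :=
    LinearMap.pi fun v => LinearMap.codRestrict _
      ((LinearMap.proj (v : V)).comp (Submodule.subtype _)) (fun μ => hmem v μ)
  have hinj : Function.Injective Φ := by
    rw [injective_iff_map_eq_zero]
    rintro ⟨μ, hμ⟩ h3
    apply Subtype.ext
    funext v
    by_cases hv : v ∈ I
    · have := congrArg Subtype.val (congrFun h3 ⟨v, hv⟩)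
      exact this
    · exact hμ.2.1 v hv
  refine (LinearMap.finrank_le_finrank_of_injective hinj).trans ?_
  rw [Module.finrank_pi_fintype, ← Finset.sum_coe_sort I
    (fun v => ∑ s ∈ Finset.range (k + 1), (k + 1 - s - (Spl1.nb E v).card * (δ - s)))]
  exact Finset.sum_le_sum fun v _ => (hloc v).2

theorem sum_loc (r n δ : ℕ) : ∑ s ∈ Finset.range (r + δ + 1), (r + δ + 1 - s - n * (δ - s)) =
    (r + 2).choose 2 + ∑ j ∈ Finset.Icc 1 δ, (r + j + 1 - j * n) := by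
  induction δ with
  | zero =>
    simp only [zero_tsub, mul_zero, tsub_zero, add_zero]
    have h1 : ∑ s ∈ Finset.range (r + 1), (r + 1 - s) = ∑ s ∈ Finset.range (r + 1), (s + 1) := by
      rw [← Finset.sum_range_reflect]
      refine Finset.sum_congr rfl fun s hs => ?_
      rw [Finset.mem_range] at hs
      omega
    rw [h1]
    have h2 : ∑ s ∈ Finset.range (r + 1), (s + 1) = ∑ s ∈ Finset.range (r + 2), s := by
      rw [Finset.sum_range_succ' (fun s => s) (r + 1), add_zero]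
    rw [h2, Finset.sum_range_id, Nat.choose_two_right]
    simp
  | succ δ ih =>
    rw [show r + (δ + 1) + 1 = (r + δ + 1) + 1 by ring, Finset.sum_range_succ']
    have h1 : ∑ s ∈ Finset.range (r + δ + 1), (r + δ + 1 + 1 - (s + 1) - n * (δ + 1 - (s + 1))) =
        ∑ s ∈ Finset.range (r + δ + 1), (r + δ + 1 - s - n * (δ - s)) := by
      refine Finset.sum_congr rfl fun s _ => ?_
      rw [Nat.add_sub_add_right, Nat.add_sub_add_right]
    rw [h1, ih, Finset.sum_Icc_succ_top (by omega)]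
    have h2 : r + δ + 1 + 1 - 0 - n * (δ + 1 - 0) = r + (δ + 1) + 1 - (δ + 1) * n := by
      rw [Nat.sub_zero, Nat.sub_zero, mul_comm]
      congr 1
    rw [h2]
    ring

/-- the truncated statement over the reals -/
theorem z_real {K : Type*} [Field K] (E : Finset (Finset V)) (I : Finset V) (k δ : ℕ)
    (τ : V → ℕ) (p₀ : V × Fin 2 → K) (hτk : ∀ v ∈ I, τ v ≤ k)
    (hZ : ∀ μ ∈ Sol k δ τ p₀ E I, ∀ v ∈ I, dl p₀ v ^ τ v ∣ μ v) :
    ∃ Q : MvPolynomial (V × Fin 2) ℝ, Q ≠ 0 ∧ ∀ p : V × Fin 2 → ℝ, eval p Q ≠ 0 →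
      ∀ μ ∈ Sol k δ τ p E I, ∀ v ∈ I, dl p v ^ τ v ∣ μ v := by
  obtain ⟨Q, hQ, hQ'⟩ := sol_semicont k δ τ p₀ E I
  refine ⟨Q, hQ, fun p hp μ hμ v hv => ?_⟩
  have h1 := hQ' p hp
  rw [finrank_sol_of_dvd k δ τ p₀ E I hτk hZ] at h1
  have h2 := triv_le k δ τ p E I hτk
  have hfd := brt_fd k δ τ p E I
  have h3 : Module.finrank ℝ ((v : I) → homogeneousSubmodule (Fin 3) ℝ (k - τ v)) =
      Module.finrank ℝ (Sol k δ τ p E I) := by
    rw [brt_rank]
    omega
  have hfin : ∀ m : ℕ, Module.Finite ℝ (homogeneousSubmodule (Fin 3) ℝ m) := fun m => brt_fin m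
  have h4 := (LinearMap.injective_iff_surjective_of_finrank_eq_finrank h3).1
    (brS_inj k δ τ p E I hτk)
  obtain ⟨g, hg⟩ := h4 ⟨μ, hμ⟩
  have h5 := congrFun (congrArg Subtype.val hg) v
  have h6 : (brS k δ τ p E I hτk g).1 v = dl p v ^ τ v * (g ⟨v, hv⟩ : MvPolynomial (Fin 3) ℝ) :=
    dif_pos hv
  exact ⟨_, h5.symm.trans h6⟩

/-- general position -/
noncomputable def genP (V : Type*) [Fintype V] [DecidableEq V] : MvPolynomial (V × Fin 2) ℝ :=
  (∏ e ∈ (Finset.univ : Finset (V × V)).filter (fun e => e.1 ≠ e.2),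
    (X (e.1, 1) - X (e.2, 1))) *
  ∏ e ∈ (Finset.univ : Finset (V × V × V)).filter
      (fun e => e.1 ≠ e.2.1 ∧ e.1 ≠ e.2.2 ∧ e.2.1 ≠ e.2.2),
    ((X (e.2.1, 0) - X (e.1, 0)) * (X (e.2.2, 1) - X (e.1, 1)) -
      (X (e.2.2, 0) - X (e.1, 0)) * (X (e.2.1, 1) - X (e.1, 1)))

theorem genP_ne : genP V ≠ 0 := by
  unfold genP
  refine mul_ne_zero (Finset.prod_ne_zero_iff.2 fun e he => ?_)
    (Finset.prod_ne_zero_iff.2 fun e he => ?_)
  · rw [Finset.mem_filter] at he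
    intro h
    have := congrArg (eval (fun x : V × Fin 2 => if x.1 = e.1 then (1 : ℝ) else 0)) h
    simp [Ne.symm he.2] at this
  · rw [Finset.mem_filter] at he
    obtain ⟨-, h1, h2, h3⟩ := he
    intro h
    have := congrArg (eval (fun x : V × Fin 2 =>
      if x = (e.2.1, 0) ∨ x = (e.2.2, 1) then (1 : ℝ) else 0)) h
    simp [h1, h2, h3, Ne.symm h3] at this

theorem genP_spec {p : V × Fin 2 → ℝ} (h : eval p (genP V) ≠ 0) :
    (∀ u v, u ≠ v → p (u, 1) ≠ p (v, 1)) ∧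
      ∀ v u w, u ≠ v → w ≠ v → u ≠ w → par p v u ≠ par p v w := by
  unfold genP at h
  rw [map_mul, map_prod, map_prod] at h
  have ha := left_ne_zero_of_mul h
  have hb := right_ne_zero_of_mul h
  rw [Finset.prod_ne_zero_iff] at ha hb
  have h1 : ∀ u v, u ≠ v → p (u, 1) ≠ p (v, 1) := by
    intro u v huv he
    refine ha (u, v) (by simp [huv]) ?_
    simp [he]
  refine ⟨h1, fun v u w huv hwv huw he => ?_⟩
  refine hb (v, u, w) (by simp [huv.symm, hwv.symm, huw]) ?_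
  have hu := sub_ne_zero.2 (h1 u v huv)
  have hw := sub_ne_zero.2 (h1 w v hwv)
  unfold par at he
  rw [div_eq_div_iff hu hw] at he
  simp only [map_sub, map_mul, eval_X]
  linarith

theorem z_bridge {K : Type*} [Field K] (T : Finset (Finset V)) (k δ : ℕ) (τ : V → ℕ)
    (p₀ : V × Fin 2 → K) (hδ : 1 ≤ δ) (hτk : ∀ v ∈ Spl1.intV T, τ v ≤ k)
    (hτ : ∀ u ∈ Spl1.intV T, ∀ v ∈ Spl1.intV T, u ≠ v → ({u, v} : Finset V) ∈ Spl1.intE T →
      δ ≤ τ u + τ v)
    (hZ : ∀ μ ∈ Sol k δ τ p₀ (Spl1.intE T) (Spl1.intV T), ∀ v ∈ Spl1.intV T,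
      dl p₀ v ^ τ v ∣ μ v) :
    ∃ Q : MvPolynomial (V × Fin 2) ℝ, Q ≠ 0 ∧ ∀ p : V × Fin 2 → ℝ, eval p Q ≠ 0 →
      ∀ r d : ℕ, δ ≤ d + 1 → r + δ ≤ k →
        Module.finrank ℝ (Spl1.CofSys r d p T) +
            (Spl1.intV T).card * ((r + d + 3).choose 2 - (r + 2).choose 2) ≤
          (d + 2).choose 2 * (Spl1.intE T).card +
            ∑ v ∈ Spl1.intV T, ∑ j ∈ Finset.Icc 1 (d + 1),
              (r + j + 1 - j * (Spl1.nb (Spl1.intE T) v).card) := by
  obtain ⟨Q, hQ, hQ'⟩ := z_real (Spl1.intE T) (Spl1.intV T) k δ τ p₀ hτk hZ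
  refine ⟨Q * genP V, mul_ne_zero hQ genP_ne, fun p hp r d hd hr => ?_⟩
  rw [map_mul] at hp
  have hZ' := hQ' p (left_ne_zero_of_mul hp)
  obtain ⟨g1, g2⟩ := genP_spec (right_ne_zero_of_mul hp)
  have hDec : Dec p k δ (Spl1.intE T) (Spl1.intV T) := dec_of_z hτ hZ'
  have hDec' : Dec p (r + 1 + d) (d + 1) (Spl1.intE T) (Spl1.intV T) :=
    dec_all hδ (fun u v huv _ => g1 u v huv) hDec _ _ hd (by omega)
  have h1 := finrank_sol_dec_le p (r + 1 + d) (d + 1) _ _ hDec' g1 g2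
  have h2 := finrank_cofSys r d p T (fun u v huv _ => g1 u v huv)
  have h3 : ∑ v ∈ Spl1.intV T, ∑ s ∈ Finset.range (r + 1 + d + 1),
      (r + 1 + d + 1 - s - (Spl1.nb (Spl1.intE T) v).card * (d + 1 - s)) =
      (Spl1.intV T).card * (r + 2).choose 2 + ∑ v ∈ Spl1.intV T, ∑ j ∈ Finset.Icc 1 (d + 1),
        (r + j + 1 - j * (Spl1.nb (Spl1.intE T) v).card) := by
    rw [← smul_eq_mul, ← Finset.sum_const, ← Finset.sum_add_distrib]
    refine Finset.sum_congr rfl fun v _ => ?_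
    rw [← sum_loc, show r + 1 + d + 1 = r + (d + 1) + 1 by ring]
  rw [h3] at h1
  have h4 : (r + 2).choose 2 ≤ (r + d + 3).choose 2 := Nat.choose_le_choose 2 (by omega)
  have h5 : (Spl1.intV T).card * (r + d + 3).choose 2 =
      (Spl1.intV T).card * ((r + d + 3).choose 2 - (r + 2).choose 2) +
        (Spl1.intV T).card * (r + 2).choose 2 := by
    rw [← Nat.mul_add, Nat.sub_add_cancel h4]
  rw [h5] at h2
  omega

end Pool.Agent.SplZ
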