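import Pool.Agent.SplZ.Jet

/-!
# SplZ, module Loc: the local spaces

`Gm p v f = f (1, t, w - x_v - y_v t) ∈ K[t][w]` (`t` the inner, `w` the outer variable).  For a form `f` of degree `k` the
coefficient of `w^s` is a polynomial `b_s` in `t` of degree `≤ k - s`, and `f` is determined by them (`gm_inj`).  If
`adp p u v f ∈ (X 0, X 1) ^ δ` then `(t - t_u)^(δ - s)` divides `b_s`, `t_u = -(x_u - x_v) / (y_u - y_v)` (`dvd_of_jd`): the algebra
homomorphism `X 0 ↦ t + w/Δ`, `X 1 ↦ w/Δ`, `X 2 ↦ 1/Δ` maps `adp p u v f` to `(Gm p v f)(t_u + t, w)`.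
So the space of these forms, for `n` neighbours `u` with different `t_u`, has dimension at most
`∑_{s ≤ k} (k + 1 - s - n (δ - s))_+` (`finrank_loc_le`).
-/

set_option autoImplicit false

namespace Pool.Agent.SplZ

open Pool.Agent.Spl2

variable {K : Type*} [Field K]

section jets
open Polynomial

/-- `F ∈ (t, w) ^ a` in `K[t][w]` -/
def J2 (a : ℕ) (F : K[X][X]) : Prop := ∀ s, (X : K[X]) ^ (a - s) ∣ F.coeff s

theorem J2.mul {a b : ℕ} {F G : K[X][X]} (hF : J2 a F) (hG : J2 b G) : J2 (a + b) (F * G) := by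
  intro s
  rw [coeff_mul]
  refine Finset.dvd_sum fun x hx => ?_
  rw [Finset.HasAntidiagonal.mem_antidiagonal] at hx
  have h1 := mul_dvd_mul (hF x.1) (hG x.2)
  rw [← pow_add] at h1
  exact (pow_dvd_pow _ (by omega)).trans h1

theorem j2_zero (F : K[X][X]) : J2 0 F := fun s => by simp

theorem J2.pow {a : ℕ} {F : K[X][X]} (hF : J2 a F) (n : ℕ) : J2 (a * n) (F ^ n) := by
  induction n with
  | zero => simpa using j2_zero (1 : K[X][X])
  | succ n ih =>
    rw [pow_succ, Nat.mul_succ]
    exact ih.mul hF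

theorem J2.add {a : ℕ} {F G : K[X][X]} (hF : J2 a F) (hG : J2 a G) : J2 a (F + G) := by
  intro s
  rw [coeff_add]
  exact dvd_add (hF s) (hG s)

theorem J2.mono {a b : ℕ} (h : b ≤ a) {F : K[X][X]} (hF : J2 a F) : J2 b F := fun s =>
  (pow_dvd_pow _ (by omega)).trans (hF s)

theorem J2.sum {ι : Type*} {a : ℕ} {S : Finset ι} {F : ι → K[X][X]} (h : ∀ i ∈ S, J2 a (F i)) :
    J2 a (∑ i ∈ S, F i) := by
  intro s
  rw [finsetSum_coeff]
  exact Finset.dvd_sum fun i hi => h i hi s

end jets

variable {V : Type*}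

/-- `f (1, t, w - x_v - y_v t)` -/
noncomputable def Gm (p : V × Fin 2 → K) (v : V) :
    MvPolynomial (Fin 3) K →ₐ[K] Polynomial (Polynomial K) :=
  MvPolynomial.aeval ![1, Polynomial.C Polynomial.X,
    Polynomial.X - Polynomial.C (Polynomial.C (p (v, 0)) + Polynomial.C (p (v, 1)) * Polynomial.X)]

/-- `f (t + w / Δ, w / Δ, 1 / Δ)` -/
noncomputable def Ps (Δ : K) : MvPolynomial (Fin 3) K →ₐ[K] Polynomial (Polynomial K) :=
  MvPolynomial.aeval ![Polynomial.C Polynomial.X +
      Polynomial.C (Polynomial.C Δ⁻¹) * Polynomial.X,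
    Polynomial.C (Polynomial.C Δ⁻¹) * Polynomial.X, Polynomial.C (Polynomial.C Δ⁻¹)]

theorem ps_j2 (Δ : K) {δ : ℕ} {F : MvPolynomial (Fin 3) K} (hF : Jd δ F) : J2 δ (Ps Δ F) := by
  unfold Ps
  rw [MvPolynomial.aeval_def, MvPolynomial.eval₂_eq']
  refine J2.sum fun m hm => ?_
  have h1 : δ ≤ m 0 + m 1 := by
    by_contra hcon
    exact (MvPolynomial.mem_support_iff.1 hm) (hF m (by omega))
  rw [Fin.prod_univ_three]
  simp only [Matrix.cons_val_zero, Matrix.cons_val_one, Matrix.cons_val]
  have hx : J2 1 (Polynomial.C (Polynomial.C Δ⁻¹) * Polynomial.X : Polynomial (Polynomial K)) := by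
    intro s
    rcases s with _ | s
    · simp
    · simp
  have hy : J2 1 (Polynomial.C Polynomial.X : Polynomial (Polynomial K)) := by
    intro s
    rcases s with _ | s
    · simp
    · simp
  have h2 := ((hy.add hx).pow (m 0)).mul (hx.pow (m 1))
  have h3 := (j2_zero (algebraMap K (Polynomial (Polynomial K)) (MvPolynomial.coeff m F))).mul
    (h2.mul (j2_zero ((Polynomial.C (Polynomial.C Δ⁻¹) : Polynomial (Polynomial K)) ^ m 2)))
  refine J2.mono ?_ h3
  omega

theorem ps_adp (p : V × Fin 2 → K) (u v : V) (h : p (u, 1) ≠ p (v, 1))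
    (f : MvPolynomial (Fin 3) K) :
    Ps (p (u, 1) - p (v, 1)) (adp p u v f) = (Gm p v f).map (Polynomial.compRingHom
      (Polynomial.X + Polynomial.C (-(p (u, 0) - p (v, 0)) / (p (u, 1) - p (v, 1))))) := by
  have hd := sub_ne_zero.2 h
  obtain ⟨Δ, hΔ⟩ : ∃ Δ, Δ = p (u, 1) - p (v, 1) := ⟨_, rfl⟩
  rw [← hΔ] at hd ⊢
  have hyu : p (u, 1) = Δ + p (v, 1) := by rw [hΔ]; ring
  have key : ((Ps Δ).toRingHom.comp (adp p u v).toRingHom) =
      (Polynomial.mapRingHom (Polynomial.compRingHom
      (Polynomial.X + Polynomial.C (-(p (u, 0) - p (v, 0)) / Δ)))).comp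
        (Gm p v).toRingHom := by
    apply MvPolynomial.ringHom_ext
    · intro a
      simp [Ps, Gm, adp]
    · intro i
      have hCC : ∀ a : K, (algebraMap K (Polynomial (Polynomial K))) a =
        Polynomial.C (Polynomial.C a) := fun a => rfl
      fin_cases i
      · simp only [Ps, Gm, adp, RingHom.comp_apply, AlgHom.toRingHom_eq_coe, RingHom.coe_coe,
          MvPolynomial.aeval_X]
        simp only [Fin.zero_eta, Matrix.cons_val_zero, map_mul, MvPolynomial.aeval_X,
          Matrix.cons_val, map_one, ← hΔ]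
        rw [MvPolynomial.algHom_C, hCC, ← Polynomial.C_mul, ← Polynomial.C_mul,
          mul_inv_cancel₀ hd]
        simp
      · simp only [Ps, Gm, adp, RingHom.comp_apply, AlgHom.toRingHom_eq_coe, RingHom.coe_coe,
          MvPolynomial.aeval_X]
        simp only [Fin.mk_one, Matrix.cons_val_one, map_sub, map_mul, MvPolynomial.aeval_X,
          Matrix.cons_val, Matrix.cons_val_zero, MvPolynomial.algHom_C, hCC,
          Polynomial.coe_mapRingHom, Polynomial.map_C, Polynomial.coe_compRingHom_apply,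
          Polynomial.X_comp]
        rw [show (-(p (u, 0) - p (v, 0)) / Δ : K) = -((p (u, 0) - p (v, 0)) * Δ⁻¹) by
          rw [neg_div, div_eq_mul_inv]]
        simp only [map_add, map_neg, map_mul, map_sub]
        ring
      · simp only [Ps, Gm, adp, RingHom.comp_apply, AlgHom.toRingHom_eq_coe, RingHom.coe_coe,
          MvPolynomial.aeval_X]
        simp only [Fin.reduceFinMk, map_sub, map_add, map_neg, map_mul, MvPolynomial.aeval_X,
          Matrix.cons_val, Matrix.cons_val_zero, Matrix.cons_val_one, MvPolynomial.algHom_C, hCC,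
          Polynomial.coe_mapRingHom, Polynomial.map_X, Polynomial.map_C,
          Polynomial.coe_compRingHom_apply, Polynomial.C_comp, Polynomial.X_comp]
        have e : Polynomial.C (Polynomial.C Δ) * Polynomial.C (Polynomial.C Δ⁻¹) =
            (1 : Polynomial (Polynomial K)) := by
          rw [← Polynomial.C_mul, ← Polynomial.C_mul, mul_inv_cancel₀ hd]
          simp
        rw [show (-(p (u, 0) - p (v, 0)) / Δ : K) = -((p (u, 0) - p (v, 0)) * Δ⁻¹) by
          rw [neg_div, div_eq_mul_inv], hyu]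
        simp only [map_add, map_neg, map_mul, map_sub]
        linear_combination (Polynomial.X - Polynomial.C (Polynomial.C (p (v, 0)))) * e
  have := congrArg (fun φ => φ f) key
  exact this

/-- the divisibility of the coefficients -/
theorem dvd_of_jd (p : V × Fin 2 → K) (u v : V) (h : p (u, 1) ≠ p (v, 1)) {δ : ℕ}
    {f : MvPolynomial (Fin 3) K} (hf : Jd δ (adp p u v f)) (s : ℕ) :
    (Polynomial.X - Polynomial.C (-(p (u, 0) - p (v, 0)) / (p (u, 1) - p (v, 1)))) ^ (δ - s) ∣
      (Gm p v f).coeff s := by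
  have h1 := ps_j2 (p (u, 1) - p (v, 1)) hf s
  rw [ps_adp p u v h, Polynomial.coeff_map] at h1
  obtain ⟨t, ht⟩ : ∃ t, t = -(p (u, 0) - p (v, 0)) / (p (u, 1) - p (v, 1)) := ⟨_, rfl⟩
  rw [← ht] at h1 ⊢
  rw [Polynomial.coe_compRingHom_apply] at h1
  obtain ⟨g, hg⟩ := h1
  refine ⟨g.comp (Polynomial.X - Polynomial.C t), ?_⟩
  have h2 := congrArg (fun q => q.comp (Polynomial.X - Polynomial.C t)) hg
  simp only [Polynomial.comp_assoc, Polynomial.add_comp, Polynomial.X_comp, Polynomial.C_comp,
    sub_add_cancel, Polynomial.comp_X, Polynomial.mul_comp, Polynomial.pow_comp] at h2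
  exact h2

/-- degrees in `K[t][w]` -/
def Dg (k : ℕ) (F : Polynomial (Polynomial K)) : Prop :=
  ∀ s, (k < s → F.coeff s = 0) ∧ (F.coeff s).natDegree ≤ k - s

theorem Dg.mul {a b : ℕ} {F G : Polynomial (Polynomial K)} (hF : Dg a F) (hG : Dg b G) :
    Dg (a + b) (F * G) := by
  intro s
  rw [Polynomial.coeff_mul]
  constructor
  · intro hs
    refine Finset.sum_eq_zero fun x hx => ?_
    rw [Finset.HasAntidiagonal.mem_antidiagonal] at hx
    by_cases h1 : a < x.1
    · rw [(hF x.1).1 h1, zero_mul]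
    · rw [(hG x.2).1 (by omega), mul_zero]
  · refine Polynomial.natDegree_sum_le_of_forall_le _ _ fun x hx => ?_
    rw [Finset.HasAntidiagonal.mem_antidiagonal] at hx
    by_cases h1 : a < x.1
    · rw [(hF x.1).1 h1, zero_mul]
      simp
    · by_cases h2 : b < x.2
      · rw [(hG x.2).1 h2, mul_zero]
        simp
      · have h3 := (hF x.1).2
        have h4 := (hG x.2).2
        have h5 := Polynomial.natDegree_mul_le (p := F.coeff x.1) (q := G.coeff x.2)
        omega

theorem dg_C (a : K) : Dg 0 (Polynomial.C (Polynomial.C a)) := by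
  intro s
  rw [Polynomial.coeff_C]
  split_ifs with h
  · subst h; simp
  · simp

theorem Dg.pow {a : ℕ} {F : Polynomial (Polynomial K)} (hF : Dg a F) (n : ℕ) :
    Dg (a * n) (F ^ n) := by
  induction n with
  | zero =>
    have := dg_C (1 : K)
    simpa using this
  | succ n ih =>
    rw [pow_succ, Nat.mul_succ]
    exact ih.mul hF

theorem gm_dg (p : V × Fin 2 → K) (v : V) {k : ℕ} {f : MvPolynomial (Fin 3) K}
    (hf : f.IsHomogeneous k) : Dg k (Gm p v f) := by
  unfold Gm
  rw [MvPolynomial.aeval_def, MvPolynomial.eval₂_eq']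
  have key : ∀ m ∈ f.support, Dg k ((algebraMap K (Polynomial (Polynomial K)))
      (MvPolynomial.coeff m f) * ∏ i : Fin 3, (![1, Polynomial.C Polynomial.X,
    Polynomial.X - Polynomial.C (Polynomial.C (p (v, 0)) + Polynomial.C (p (v, 1)) *
      Polynomial.X)] : Fin 3 → Polynomial (Polynomial K)) i ^ m i) := by
    intro m hm
    have hk := mem_ext3 hf (MvPolynomial.mem_support_iff.1 hm)
    rw [Fin.prod_univ_three]
    simp only [Matrix.cons_val_zero, Matrix.cons_val_one, Matrix.cons_val]
    have h0 : Dg 1 (1 : Polynomial (Polynomial K)) := by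
      intro s
      rw [Polynomial.coeff_one]
      split_ifs with h
      · subst h; simp
      · simp
    have h1 : Dg 1 (Polynomial.C Polynomial.X : Polynomial (Polynomial K)) := by
      intro s
      rw [Polynomial.coeff_C]
      split_ifs with h
      · subst h
        exact ⟨fun h => absurd h (by norm_num), Polynomial.natDegree_X_le⟩
      · simp
    have h2 : Dg 1 (Polynomial.X - Polynomial.C (Polynomial.C (p (v, 0)) +
        Polynomial.C (p (v, 1)) * Polynomial.X) : Polynomial (Polynomial K)) := by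
      intro s
      rw [Polynomial.coeff_sub, Polynomial.coeff_X, Polynomial.coeff_C]
      rcases s with _ | _ | s
      · refine ⟨fun h => absurd h (by norm_num), ?_⟩
        simp only [one_ne_zero, if_false, if_true, zero_sub, Polynomial.natDegree_neg]
        refine (Polynomial.natDegree_add_le _ _).trans (max_le ?_ ?_)
        · simp
        · exact (Polynomial.natDegree_C_mul_le _ _).trans Polynomial.natDegree_X_le
      · simp
      · simp
    have h3 := (dg_C (MvPolynomial.coeff m f)).mul
      (((h0.pow (m 0)).mul (h1.pow (m 1))).mul (h2.pow (m 2)))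
    have e : 0 + (1 * m 0 + 1 * m 1 + 1 * m 2) = k := by omega
    rw [e] at h3
    exact h3
  intro s
  rw [Polynomial.finsetSum_coeff]
  constructor
  · intro hs
    exact Finset.sum_eq_zero fun m hm => (key m hm s).1 hs
  · exact Polynomial.natDegree_sum_le_of_forall_le _ _ fun m hm => (key m hm s).2

/-- `f (1, t, w)` -/
noncomputable def Hm : MvPolynomial (Fin 3) K →ₐ[K] Polynomial (Polynomial K) :=
  MvPolynomial.aeval ![1, Polynomial.C Polynomial.X, Polynomial.X]

theorem hm_inj {k : ℕ} {f : MvPolynomial (Fin 3) K} (hf : f.IsHomogeneous k) (h : Hm f = 0) :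
    f = 0 := by
  ext m
  rw [MvPolynomial.coeff_zero]
  by_contra hne
  have hk := mem_ext3 hf hne
  have h1 := congrArg (fun F : Polynomial (Polynomial K) => (F.coeff (m 2)).coeff (m 1)) h
  simp only [Polynomial.coeff_zero] at h1
  apply hne
  rw [← h1]
  unfold Hm
  rw [MvPolynomial.aeval_def, MvPolynomial.eval₂_eq', Polynomial.finsetSum_coeff,
    Polynomial.finsetSum_coeff, Finset.sum_eq_single m]
  · rw [Fin.prod_univ_three]
    simp only [Matrix.cons_val_zero, Matrix.cons_val_one, Matrix.cons_val]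
    have e : (algebraMap K (Polynomial (Polynomial K))) (MvPolynomial.coeff m f) *
        (1 ^ m 0 * Polynomial.C Polynomial.X ^ m 1 * Polynomial.X ^ m 2) =
        Polynomial.C (Polynomial.C (MvPolynomial.coeff m f) * Polynomial.X ^ m 1) *
          Polynomial.X ^ m 2 := by
      have hCC : ∀ a : K, (algebraMap K (Polynomial (Polynomial K))) a =
        Polynomial.C (Polynomial.C a) := fun a => rfl
      rw [hCC, Polynomial.C_mul, Polynomial.C_pow]
      ring
    rw [e, Polynomial.coeff_C_mul_X_pow, if_pos rfl, Polynomial.coeff_C_mul_X_pow, if_pos rfl]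
  · intro m' hm' hne'
    rw [Fin.prod_univ_three]
    simp only [Matrix.cons_val_zero, Matrix.cons_val_one, Matrix.cons_val]
    have e : (algebraMap K (Polynomial (Polynomial K))) (MvPolynomial.coeff m' f) *
        (1 ^ m' 0 * Polynomial.C Polynomial.X ^ m' 1 * Polynomial.X ^ m' 2) =
        Polynomial.C (Polynomial.C (MvPolynomial.coeff m' f) * Polynomial.X ^ m' 1) *
          Polynomial.X ^ m' 2 := by
      have hCC : ∀ a : K, (algebraMap K (Polynomial (Polynomial K))) a =
        Polynomial.C (Polynomial.C a) := fun a => rfl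
      rw [hCC, Polynomial.C_mul, Polynomial.C_pow]
      ring
    rw [e, Polynomial.coeff_C_mul_X_pow]
    split_ifs with h2
    · rw [Polynomial.coeff_C_mul_X_pow]
      split_ifs with h3
      · exfalso
        apply hne'
        have hk' := mem_ext3 hf (MvPolynomial.mem_support_iff.1 hm')
        ext s
        fin_cases s
        · show m' 0 = m 0
          omega
        · exact h3.symm
        · exact h2.symm
      · rfl
    · simp
  · intro hm
    rw [MvPolynomial.mem_support_iff, not_not] at hm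
    rw [hm]
    simp

theorem gm_inj (p : V × Fin 2 → K) (v : V) {k : ℕ} {f : MvPolynomial (Fin 3) K}
    (hf : f.IsHomogeneous k) (h : Gm p v f = 0) : f = 0 := by
  apply hm_inj hf
  obtain ⟨a, ha⟩ : ∃ a : Polynomial K, a = Polynomial.C (p (v, 0)) +
    Polynomial.C (p (v, 1)) * Polynomial.X := ⟨_, rfl⟩
  have key : (Gm p v).toRingHom = (Polynomial.compRingHom (Polynomial.X - Polynomial.C a)).comp
      (Hm : MvPolynomial (Fin 3) K →ₐ[K] Polynomial (Polynomial K)).toRingHom := by
    apply MvPolynomial.ringHom_ext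
    · intro b
      simp [Gm, Hm]
    · intro i
      fin_cases i
      · simp [Gm, Hm]
      · simp [Gm, Hm]
      · simp [Gm, Hm, ha]
  have h1 : Gm p v f = (Hm f).comp (Polynomial.X - Polynomial.C a) := by
    have := congrArg (fun φ => φ f) key
    exact this
  rw [h1] at h
  have h2 := congrArg (fun q => q.comp (Polynomial.X + Polynomial.C a)) h
  simp only [Polynomial.comp_assoc, Polynomial.sub_comp, Polynomial.X_comp, Polynomial.C_comp,
    add_sub_cancel_right, Polynomial.comp_X, Polynomial.zero_comp] at h2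
  exact h2

/-- multiples of `D ^ e` of small degree -/
noncomputable def Pm (D : Polynomial K) (N e : ℕ) : Submodule K (Polynomial K) :=
  (Polynomial.degreeLT K (N - D.natDegree * e)).map (LinearMap.mulLeft K (D ^ e))

theorem finrank_Pm (D : Polynomial K) (N e : ℕ) :
    Module.finrank K (Pm D N e) ≤ N - D.natDegree * e := by
  refine (Submodule.finrank_map_le _ _).trans ?_
  rw [LinearEquiv.finrank_eq (Polynomial.degreeLTEquiv K _), Module.finrank_fintype_fun_eq_card,
    Fintype.card_fin]

theorem mem_Pm {D : Polynomial K} (hD : D.Monic) {N e : ℕ} {b : Polynomial K}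
    (hb : b.degree < N) (hd : D ^ e ∣ b) : b ∈ Pm D N e := by
  obtain ⟨q, hq⟩ := hd
  refine ⟨q, ?_, by rw [LinearMap.mulLeft_apply, hq]⟩
  rw [SetLike.mem_coe, Polynomial.mem_degreeLT]
  by_cases hq0 : q = 0
  · rw [hq0, Polynomial.degree_zero]
    exact WithBot.bot_lt_coe _
  · have hb0 : b ≠ 0 := by
      rw [hq]
      exact mul_ne_zero (pow_ne_zero _ hD.ne_zero) hq0
    rw [Polynomial.degree_eq_natDegree hb0, Nat.cast_lt] at hb
    rw [Polynomial.degree_eq_natDegree hq0, Nat.cast_lt]
    have h1 : b.natDegree = D.natDegree * e + q.natDegree := by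
      rw [hq, Polynomial.natDegree_mul (pow_ne_zero _ hD.ne_zero) hq0,
        Polynomial.natDegree_pow, mul_comm]
    omega

instance (D : Polynomial K) (N e : ℕ) : Module.Finite K (Pm D N e) := by
  have : Module.Finite K (Polynomial.degreeLT K (N - D.natDegree * e)) :=
    Module.Finite.equiv (Polynomial.degreeLTEquiv K _).symm
  unfold Pm
  infer_instance

variable [Fintype V] [DecidableEq V]

/-- the local space of the vertex `v` -/
def Loc (p : V × Fin 2 → K) (k δ : ℕ) (N : Finset V) (v : V) :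
    Submodule K (MvPolynomial (Fin 3) K) where
  carrier := {f | f.IsHomogeneous k ∧ ∀ u ∈ N, Jd δ (adp p u v f)}
  add_mem' := by
    rintro f g ⟨h1, h2⟩ ⟨h3, h4⟩
    refine ⟨h1.add h3, fun u hu => ?_⟩
    rw [map_add]
    exact (h2 u hu).add (h4 u hu)
  zero_mem' := ⟨MvPolynomial.isHomogeneous_zero _ _ _, fun u _ => by
    rw [map_zero]
    exact jd_zero δ⟩
  smul_mem' := by
    rintro a f ⟨h1, h2⟩
    refine ⟨(MvPolynomial.homogeneousSubmodule (Fin 3) K k).smul_mem a h1, fun u hu => ?_⟩
    rw [map_smul, MvPolynomial.smul_eq_C_mul]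
    exact (h2 u hu).C_mul a

/-- the parameter of the direction `v u` -/
noncomputable def par (p : V × Fin 2 → K) (v u : V) : K :=
  -(p (u, 0) - p (v, 0)) / (p (u, 1) - p (v, 1))

theorem finrank_loc_le (p : V × Fin 2 → K) (k δ : ℕ) (N : Finset V) (v : V)
    (h1 : ∀ u ∈ N, p (u, 1) ≠ p (v, 1))
    (h2 : ∀ u ∈ N, ∀ w ∈ N, u ≠ w → par p v u ≠ par p v w) :
    Module.Finite K (Loc p k δ N v) ∧ Module.finrank K (Loc p k δ N v) ≤
      ∑ s ∈ Finset.range (k + 1), (k + 1 - s - N.card * (δ - s)) := by
  obtain ⟨D, hD⟩ : ∃ D : Polynomial K, D = ∏ u ∈ N, (Polynomial.X - Polynomial.C (par p v u)) :=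
    ⟨_, rfl⟩
  have hDm : D.Monic := by
    rw [hD]
    exact Polynomial.monic_prod_of_monic _ _ fun u _ => Polynomial.monic_X_sub_C _
  have hDn : D.natDegree = N.card := by
    rw [hD, Polynomial.natDegree_prod_of_monic _ _ fun u _ => Polynomial.monic_X_sub_C _]
    simp
  have hmem : ∀ (s : Fin (k + 1)) (f : Loc p k δ N v),
      (Gm p v f.1).coeff s ∈ Pm D (k + 1 - s) (δ - s) := by
    rintro s ⟨f, hf1, hf2⟩
    refine mem_Pm hDm ?_ ?_
    · have h3 := (gm_dg p v hf1 s).2
      have h4 : ((Gm p v f).coeff s).natDegree < k + 1 - s := by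
        have := s.2
        omega
      exact (Polynomial.degree_le_natDegree).trans_lt (by exact_mod_cast h4)
    · rw [hD, ← Finset.prod_pow]
      refine Finset.prod_dvd_of_coprime ?_ ?_
      · intro u hu w hw huw
        exact (Polynomial.isCoprime_X_sub_C_of_isUnit_sub
          (sub_ne_zero.2 (h2 u hu w hw huw)).isUnit).pow
      · intro u hu
        exact dvd_of_jd p u v (h1 u hu) (hf2 u hu) s
  let Φ : Loc p k δ N v →ₗ[K] ((s : Fin (k + 1)) → Pm D (k + 1 - s) (δ - s)) :=
    LinearMap.pi fun s => LinearMap.codRestrict _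
      ((Polynomial.lcoeff (Polynomial K) (s : ℕ)).restrictScalars K ∘ₗ (Gm p v).toLinearMap ∘ₗ
        (Submodule.subtype _)) (fun f => hmem s f)
  have hinj : Function.Injective Φ := by
    rw [injective_iff_map_eq_zero]
    rintro ⟨f, hf1, hf2⟩ h3
    apply Subtype.ext
    show f = 0
    apply gm_inj p v hf1
    ext1 s
    rw [Polynomial.coeff_zero]
    by_cases hs : s < k + 1
    · have := congrArg Subtype.val (congrFun h3 ⟨s, hs⟩)
      exact this
    · exact (gm_dg p v hf1 s).1 (by omega)
  refine ⟨Module.Finite.of_injective Φ hinj, ?_⟩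
  refine (LinearMap.finrank_le_finrank_of_injective hinj).trans ?_
  rw [Module.finrank_pi_fintype, ← Fin.sum_univ_eq_sum_range
    (fun s => k + 1 - s - N.card * (δ - s))]
  refine Finset.sum_le_sum fun s _ => ?_
  have := finrank_Pm D (k + 1 - s) (δ - s)
  rwa [hDn] at this

end Pool.Agent.SplZ
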